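import Pool.Agent.H665.UA.Cl

set_option autoImplicit false

/-!
# Canonical functions on closures of finite tuples
-/

namespace Pool.Agent.H665.UA

open FirstOrder FirstOrder.Language Cardinal
open Pool.Agent.H288R4.LS (AEC)

/-- structures with a tuple -/
structure PT (L : FirstOrder.Language.{0, 0}) (n : ℕ) where
  α : Type
  str : L.Structure α
  tup : Fin n → α

attribute [instance] PT.str

variable {L : FirstOrder.Language.{0, 0}} {n : ℕ}

/-- isomorphism -/
def PT.Iso (P Q : PT L n) : Prop := ∃ e : P.α ≃[L] Q.α, ∀ i, e (P.tup i) = Q.tup i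

/-- isomorphism types -/
def ptSetoid (L : FirstOrder.Language.{0, 0}) (n : ℕ) : Setoid (PT L n) where
  r := PT.Iso
  iseqv :=
    { refl := fun P => ⟨FirstOrder.Language.Equiv.refl L P.α, fun _ => rfl⟩
      symm := fun {P Q} ⟨e, he⟩ => ⟨e.symm, fun i => by rw [← he i, e.symm_apply_apply]⟩
      trans := fun {P Q R} ⟨e, he⟩ ⟨g, hg⟩ => ⟨g.comp e, fun i => by
        rw [← hg i, ← he i]
        rfl⟩ }

/-- a representative of the isomorphism type -/
noncomputable def PT.rep (P : PT L n) : PT L n := Quotient.out (Quotient.mk (ptSetoid L n) P)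

theorem PT.rep_iso (P : PT L n) : P.Iso P.rep :=
  Quotient.exact (s := ptSetoid L n) (Quotient.out_eq (Quotient.mk (ptSetoid L n) P)).symm

theorem PT.rep_eq {P Q : PT L n} (h : P.Iso Q) : P.rep = Q.rep :=
  congrArg Quotient.out (Quotient.sound (s := ptSetoid L n) h)

open Classical in
/-- a chosen enumeration -/
noncomputable def PT.en (Λ : Type) (P : PT L n) (hn : 0 < n) : Λ → P.α :=
  if h : ∃ f : Λ → P.α, Function.Surjective f then Classical.choose h else fun _ => P.tup ⟨0, hn⟩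

/-- the chosen isomorphism -/
noncomputable def PT.ri (P : PT L n) : P.α ≃[L] P.rep.α := Classical.choose P.rep_iso

theorem PT.ri_tup (P : PT L n) (i : Fin n) : P.ri (P.tup i) = P.rep.tup i :=
  Classical.choose_spec P.rep_iso i

/-- the canonical elements -/
noncomputable def PT.fn (Λ : Type) (P : PT L n) (hn : 0 < n) (i : Λ) : P.α :=
  P.ri.symm (P.rep.en Λ hn i)

/-- only the identity fixes the tuple -/
def PT.Rigid (P : PT L n) : Prop :=
  ∀ g : P.α ≃[L] P.α, (∀ i, g (P.tup i) = P.tup i) → ∀ x, g x = x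

theorem PT.fn_nat {Λ : Type} {P Q : PT L n} (hP : P.Rigid) (e : P.α ≃[L] Q.α)
    (he : ∀ i, e (P.tup i) = Q.tup i) (hn : 0 < n) (i : Λ) : e (P.fn Λ hn i) = Q.fn Λ hn i := by
  have key : ∀ (R R' : PT L n) (_ : R = R') (a : P.α ≃[L] R.α) (b : Q.α ≃[L] R'.α),
      (∀ i, a (P.tup i) = R.tup i) → (∀ i, b (Q.tup i) = R'.tup i) →
      e (a.symm (R.en Λ hn i)) = b.symm (R'.en Λ hn i) := by
    rintro R R' rfl a b ha hb
    have h1 := hP ((a.symm.comp b).comp e) (fun j => by
      show a.symm (b (e (P.tup j))) = _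
      rw [he, hb, ← ha, a.symm_apply_apply]) (a.symm (R.en Λ hn i))
    have h2 : a.symm (b (e (a.symm (R.en Λ hn i)))) = a.symm (R.en Λ hn i) := h1
    have h3 := a.symm.injective h2
    rw [← h3, b.symm_apply_apply, h3]
  exact key _ _ (PT.rep_eq ⟨e, he⟩) P.ri Q.ri P.ri_tup Q.ri_tup

theorem PT.fn_surj {Λ : Type} (P : PT L n) (hn : 0 < n) (h : #P.α ≤ #Λ) (x : P.α) :
    ∃ i, P.fn Λ hn i = x := by
  have h1 : ∃ f : Λ → P.rep.α, Function.Surjective f := by
    have h2 : #P.rep.α ≤ #Λ := (Cardinal.mk_congr P.ri.toEquiv).symm.le.trans h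
    obtain ⟨⟨g⟩⟩ : Nonempty (Nonempty (P.rep.α ↪ Λ)) := ⟨Cardinal.le_def _ _ |>.1 h2⟩
    have : Nonempty P.rep.α := ⟨P.rep.tup ⟨0, hn⟩⟩
    exact ⟨Function.invFun g, Function.invFun_surjective g.injective⟩
  have h2 : Function.Surjective (P.rep.en Λ hn) := by
    unfold PT.en
    rw [dif_pos h1]
    exact Classical.choose_spec h1
  obtain ⟨i, hi⟩ := h2 (P.ri x)
  refine ⟨i, ?_⟩
  show P.ri.symm (P.rep.en Λ hn i) = x
  rw [hi, P.ri.symm_apply_apply]

/-! ## Canonical functions on members -/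

variable (K : AEC L) (Λ : Type)

/-- the closure of a tuple -/
def cp (N : Type) [L.Structure N] (a : Fin n → N) : PT L n :=
  ⟨cl K N (Set.range a), inferInstance, fun i => ⟨a i, subset_cl (K := K) _ ⟨i, rfl⟩⟩⟩

/-- the canonical functions -/
noncomputable def cf (N : Type) [L.Structure N] (hn : 0 < n) (i : Λ) (a : Fin n → N) : N :=
  (show cl K N (Set.range a) from (cp K N a).fn Λ hn i).1

/-- automorphisms of the closure of a tuple which fix the tuple are trivial -/
def Rig : Prop :=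
  ∀ (M : Type) [L.Structure M], K.mem M → ∀ (n : ℕ) (a : Fin n → M), 0 < n →
    (∀ A : L.Substructure M, K.emb A.subtype → (∀ i, a i ∈ A) → A = ⊤) →
    ∀ g : M ≃[L] M, (∀ i, g (a i) = a i) → ∀ x, g x = x

variable {K Λ}

theorem cf_mem (N : Type) [L.Structure N] (hn : 0 < n) (i : Λ) (a : Fin n → N) :
    cf K Λ N hn i a ∈ cl K N (Set.range a) :=
  (show cl K N (Set.range a) from (cp K N a).fn Λ hn i).2

theorem range_ne {N : Type} (hn : 0 < n) (a : Fin n → N) : (Set.range a).Nonempty :=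
  ⟨a ⟨0, hn⟩, _, rfl⟩

theorem cp_rigid (hI : AInt K) (hU : Rig K) {N : Type} [L.Structure N] (hN : K.mem N)
    (hn : 0 < n) (a : Fin n → N) : (cp K N a).Rigid := by
  have h1 := hI N hN _ (range_ne hn a)
  refine hU _ (K.emb_mem _ h1).1 n _ hn fun A hA hAa => ?_
  have h2 := strong_map h1 hA
  refine top_unique fun x _ => ?_
  have h3 : x.1 ∈ A.map (cl K N (Set.range a)).subtype.toHom := by
    refine cl_le h2 ?_ x.2
    rintro _ ⟨i, rfl⟩
    exact ⟨_, hAa i, rfl⟩
  obtain ⟨y, hy, hyx⟩ := h3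
  have : y = x := Subtype.ext hyx
  exact this ▸ hy

theorem exists_eqv {N : Type} [L.Structure N] {B B' : L.Substructure N} (h : B = B') :
    ∃ e : B ≃[L] B', ∀ x, (e x).1 = x.1 := by
  subst h
  exact ⟨FirstOrder.Language.Equiv.refl L B, fun _ => rfl⟩

theorem cf_nat (hI : AInt K) (hU : Rig K) {M N : Type} [L.Structure M] [L.Structure N]
    {f : M ↪[L] N} (hf : K.emb f) (hn : 0 < n) (i : Λ) (a : Fin n → M) :
    f (cf K Λ M hn i a) = cf K Λ N hn i (f ∘ a) := by
  have h1 : (cl K M (Set.range a)).map f.toHom = cl K N (Set.range (f ∘ a)) := by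
    rw [cl_map hI hf (range_ne hn a), Set.range_comp]
  obtain ⟨e, he⟩ := exists_eqv h1
  let g := e.comp (f.substructureEquivMap (cl K M (Set.range a)))
  have hg : ∀ x, (g x).1 = f x.1 := fun x => he _
  have h2 := PT.fn_nat (Λ := Λ) (P := cp K M a) (Q := cp K N (f ∘ a))
    (cp_rigid hI hU (K.emb_mem _ hf).1 hn a) g (fun j => Subtype.ext (hg _)) hn i
  have h3 := congrArg (fun x : cl K N (Set.range (f ∘ a)) => x.1) h2
  exact (hg _).symm.trans h3

theorem cf_surj {lam : Cardinal.{0}} (hl : K.LSat lam) (hΛ : #Λ = lam) {N : Type}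
    [L.Structure N] (hN : K.mem N) (hn : 0 < n) (a : Fin n → N) {x : N}
    (hx : x ∈ cl K N (Set.range a)) : ∃ i, cf K Λ N hn i a = x := by
  have h1 : #(cl K N (Set.range a)) ≤ #Λ := by
    refine (mk_cl hl hN _).trans ?_
    rw [hΛ]
    exact (add_le_add ((Set.finite_range a).lt_aleph0.le.trans hl.1) le_rfl).trans
      (Cardinal.add_eq_self hl.1).le
  obtain ⟨i, hi⟩ := (cp K N a).fn_surj hn h1 ⟨x, hx⟩
  exact ⟨i, congrArg Subtype.val hi⟩

end Pool.Agent.H665.UA
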