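import Pool.Graph.R_seed8.H288R4.LS.Thr

set_option autoImplicit false

/-!
# The closure operator of an abstract elementary class admitting intersections
-/

namespace Pool.Agent.H665.UA

open FirstOrder FirstOrder.Language Cardinal
open Pool.Agent.H288R4.LS (AEC)

variable {L : FirstOrder.Language.{0, 0}} (K : AEC L) {M N R : Type} [L.Structure M]
  [L.Structure N] [L.Structure R]

/-- the intersection of the strong submodels that contain `X` -/
def cl (N : Type) [L.Structure N] (X : Set N) : L.Substructure N :=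
  sInf {A : L.Substructure N | K.emb A.subtype ∧ X ⊆ A}

/-- intersections of strong submodels with a common element are strong submodels -/
def AInt : Prop :=
  ∀ (N : Type) [L.Structure N], K.mem N → ∀ X : Set N, X.Nonempty → K.emb (cl K N X).subtype

variable {K}

theorem mem_equiv (e : M ≃[L] N) (h : K.mem M) : K.mem N := (K.emb_mem _ (K.emb_equiv e h)).2

theorem emb_id (h : K.mem M) : K.emb (⊤ : L.Substructure M).subtype := by
  have h1 := K.emb_equiv (Substructure.topEquiv (L := L) (M := M)) (mem_equiv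
    (Substructure.topEquiv (L := L) (M := M)).symm h)
  have : (Substructure.topEquiv (L := L) (M := M)).toEmbedding =
      (⊤ : L.Substructure M).subtype := by
    ext x
    rfl
  rwa [this] at h1

theorem strong_map {f : M ↪[L] N} (hf : K.emb f) {A : L.Substructure M} (hA : K.emb A.subtype) :
    K.emb (A.map f.toHom).subtype := by
  have h1 := K.emb_comp f A.subtype hf hA
  let e := f.substructureEquivMap A
  have h2 : K.emb e.symm.toEmbedding :=
    K.emb_equiv e.symm (mem_equiv e (K.emb_mem _ hA).1)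
  have h3 := K.emb_comp _ _ h1 h2
  have : (f.comp A.subtype).comp e.symm.toEmbedding = (A.map f.toHom).subtype := by
    ext x
    obtain ⟨y, rfl⟩ := e.surjective x
    show f (e.symm (e y)).1 = (e y).1
    rw [FirstOrder.Language.Equiv.symm_apply_apply]
    rfl
  rwa [this] at h3

theorem strong_comap {f : M ↪[L] N} (hf : K.emb f) {B : L.Substructure N}
    (hB : K.emb B.subtype) (hle : B ≤ f.toHom.range) : K.emb (B.comap f.toHom).subtype := by
  have hmap : (B.comap f.toHom).map f.toHom = B := by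
    refine le_antisymm Substructure.map_comap_le fun x hx => ?_
    obtain ⟨y, rfl⟩ := hle hx
    exact ⟨y, hx, rfl⟩
  have hB' : K.emb ((B.comap f.toHom).map f.toHom).subtype := by rwa [hmap]
  let e := f.substructureEquivMap (B.comap f.toHom)
  have h1 : K.mem ((B.comap f.toHom).map f.toHom) := (K.emb_mem _ hB').1
  have h2 : K.emb e.toEmbedding := K.emb_equiv e (mem_equiv e.symm h1)
  have h3 := K.emb_comp _ _ hB' h2
  have : ((B.comap f.toHom).map f.toHom).subtype.comp e.toEmbedding =
      f.comp (B.comap f.toHom).subtype := by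
    ext x
    rfl
  rw [this] at h3
  exact K.coherence f _ hf h3

theorem emb_range {f : M ↪[L] N} (hf : K.emb f) : K.emb f.toHom.range.subtype := by
  have h1 := strong_map hf (emb_id (K.emb_mem _ hf).1)
  rwa [← Hom.range_eq_map] at h1

theorem inclusion_emb {A B : L.Substructure N} (h : A ≤ B) (hA : K.emb A.subtype)
    (hB : K.emb B.subtype) : K.emb (Substructure.inclusion h) := by
  refine K.coherence B.subtype _ hB ?_
  have : B.subtype.comp (Substructure.inclusion h) = A.subtype := by
    ext x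
    rfl
  rwa [this]

theorem subset_cl (X : Set N) : X ⊆ cl K N X := fun _ hx =>
  Substructure.mem_sInf.2 fun _ hA => hA.2 hx

theorem cl_le {X : Set N} {A : L.Substructure N} (hA : K.emb A.subtype) (h : X ⊆ A) :
    cl K N X ≤ A := sInf_le ⟨hA, h⟩

theorem cl_mono {X Y : Set N} (h : X ⊆ Y) : cl K N X ≤ cl K N Y :=
  le_sInf fun _ hA => cl_le hA.1 (h.trans hA.2)

theorem cl_cl (hI : AInt K) (hN : K.mem N) {X Y : Set N} (hY : Y.Nonempty)
    (h : X ⊆ cl K N Y) : cl K N X ≤ cl K N Y := cl_le (hI N hN Y hY) h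

/-- closures are preserved by strong embeddings -/
theorem cl_map (hI : AInt K) {f : M ↪[L] N} (hf : K.emb f) {X : Set M} (hX : X.Nonempty) :
    (cl K M X).map f.toHom = cl K N (f '' X) := by
  have hM := (K.emb_mem _ hf).1
  have hN := (K.emb_mem _ hf).2
  refine le_antisymm ?_ (cl_le (strong_map hf (hI M hM X hX)) ?_)
  · have h1 : cl K N (f '' X) ≤ f.toHom.range := cl_le (emb_range hf) (by
      rintro _ ⟨x, _, rfl⟩
      exact ⟨x, rfl⟩)
    rw [Substructure.map_le_iff_le_comap]
    exact cl_le (strong_comap hf (hI N hN _ (hX.image f)) h1) fun x hx =>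
      subset_cl (K := K) (f '' X) ⟨x, hx, rfl⟩
  · rintro _ ⟨x, hx, rfl⟩
    exact ⟨x, subset_cl (K := K) X hx, rfl⟩

theorem mem_cl_map (hI : AInt K) {f : M ↪[L] N} (hf : K.emb f) {X : Set M} (hX : X.Nonempty)
    {x : M} : f x ∈ cl K N (f '' X) ↔ x ∈ cl K M X := by
  rw [← cl_map hI hf hX]
  constructor
  · rintro ⟨y, hy, hyx⟩
    have : y = x := f.injective hyx
    exact this ▸ hy
  · exact fun h => ⟨x, h, rfl⟩

theorem mk_cl {lam : Cardinal.{0}} (hl : K.LSat lam) (hN : K.mem N) (X : Set N) :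
    #(cl K N X) ≤ #X + lam := by
  obtain ⟨A, hA1, hA2, hA3⟩ := hl.2.2 N hN X
  exact (Cardinal.mk_le_mk_of_subset (cl_le hA2 hA1)).trans hA3

/-- the closure has finite character -/
theorem cl_fin (hI : AInt K) (hN : K.mem N) : ∀ (κ : Cardinal.{0}) (X : Set N), #X = κ →
    X.Nonempty → ∀ x ∈ cl K N X, ∃ F : Set N, F ⊆ X ∧ F.Finite ∧ F.Nonempty ∧ x ∈ cl K N F := by
  intro κ
  induction κ using WellFoundedLT.induction with
  | ind κ ih =>
  intro X hX hne x hx
  rcases lt_or_ge κ ℵ₀ with hκ | hκ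
  · exact ⟨X, subset_rfl, Set.finite_coe_iff.1 (Cardinal.lt_aleph0_iff_finite.1 (hX ▸ hκ)), hne, hx⟩
  have h1 : #κ.ord.ToType = #X := by rw [Cardinal.mk_ord_toType, hX]
  obtain ⟨e⟩ := Cardinal.eq.1 h1
  have : Nonempty κ.ord.ToType := Cardinal.mk_ne_zero_iff.1 (by
    rw [Cardinal.mk_ord_toType]
    exact (Cardinal.aleph0_pos.trans_le hκ).ne')
  let Xi : κ.ord.ToType → Set N := fun i => (fun j => (e j).1) '' Set.Iic i
  have hXi : ∀ i, (Xi i).Nonempty := fun i => ⟨e i, i, Set.mem_Iic.2 le_rfl, rfl⟩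
  have hXic : ∀ i, #(Xi i) < κ := by
    intro i
    refine Cardinal.mk_image_le.trans_lt ?_
    have h2 : #(Set.Iic i) ≤ #(Set.Iio i) + 1 := by
      have : Set.Iic i ⊆ Set.Iio i ∪ {i} := fun j hj => (le_iff_lt_or_eq.1 hj).elim Or.inl
        fun h => Or.inr h
      refine (Cardinal.mk_le_mk_of_subset this).trans ((Cardinal.mk_union_le _ _).trans ?_)
      rw [Cardinal.mk_singleton]
    exact h2.trans_lt (Cardinal.add_lt_of_lt hκ (Cardinal.mk_Iio_toType_ord_lt i)
      (Cardinal.one_lt_aleph0.trans_le hκ))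
  have hmono : Monotone fun i => cl K N (Xi i) := fun i j hij =>
    cl_mono (Set.image_mono (Set.Iic_subset_Iic.2 hij))
  have hstr : ∀ i, K.emb (cl K N (Xi i)).subtype := fun i => hI N hN _ (hXi i)
  have hsup := K.chain_bound (fun i => cl K N (Xi i)) hmono hstr
  have hXsub : X ⊆ (⨆ i, cl K N (Xi i) : L.Substructure N) := by
    intro y hy
    have h2 : y ∈ cl K N (Xi (e.symm ⟨y, hy⟩)) :=
      subset_cl (K := K) _ ⟨e.symm ⟨y, hy⟩, Set.mem_Iic.2 le_rfl, by simp⟩
    exact (le_iSup (fun i => cl K N (Xi i)) _) h2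
  have hx' : x ∈ (⨆ i, cl K N (Xi i) : L.Substructure N) := cl_le hsup hXsub hx
  rw [Substructure.mem_iSup_of_directed hmono.directed_le] at hx'
  obtain ⟨i, hi⟩ := hx'
  obtain ⟨F, hF1, hF2, hF3, hF4⟩ := ih _ (hXic i) (Xi i) rfl (hXi i) x hi
  refine ⟨F, hF1.trans ?_, hF2, hF3, hF4⟩
  rintro _ ⟨j, _, rfl⟩
  exact (e j).2

/-- sets closed under the closures of their finite subsets are strong submodels -/
theorem strong_of_closed (hI : AInt K) (hN : K.mem N) {A : L.Substructure N}
    (hne : (A : Set N).Nonempty)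
    (h : ∀ F : Set N, F.Finite → F.Nonempty → F ⊆ A → cl K N F ≤ A) : K.emb A.subtype := by
  have h1 : cl K N (A : Set N) = A := by
    refine le_antisymm (fun x hx => ?_) (subset_cl (K := K) _)
    obtain ⟨F, hF1, hF2, hF3, hF4⟩ := cl_fin hI hN _ (A : Set N) rfl hne x hx
    exact h F hF2 hF3 hF1 hF4
  have h2 := hI N hN _ hne
  rwa [h1] at h2

end Pool.Agent.H665.UA
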