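import Pool.Agent.H665.UA.Hp

set_option autoImplicit false

/-!
# Linear orders with small dense sets
-/

namespace Pool.Agent.H665.UA

open FirstOrder FirstOrder.Language Cardinal Ordinal
open Pool.Agent.K7.H47

theorem exists_dense {lam : Cardinal.{0}} (hl : ℵ₀ ≤ lam) :
    ∃ (X : Type) (_ : LinearOrder X) (C R : Set X), #C ≤ lam ∧ lam < #R ∧
      ∀ r ∈ R, ∀ s ∈ R, r < s → ∃ q ∈ C, r < q ∧ q < s := by
  classical
  -- the least exponent
  have hex : ∃ τ : Cardinal.{0}, lam < 2 ^ τ := ⟨lam, Cardinal.cantor lam⟩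
  let τ : Cardinal.{0} := sInf {τ : Cardinal.{0} | lam < 2 ^ τ}
  have hτ : lam < 2 ^ τ := csInf_mem (s := {τ : Cardinal.{0} | lam < 2 ^ τ}) hex
  have hτl : τ ≤ lam := csInf_le' (Cardinal.cantor lam)
  have hlt : ∀ σ < τ, 2 ^ σ ≤ lam := fun σ hσ => by
    by_contra h
    exact absurd (csInf_le' (a := σ) (s := {τ : Cardinal.{0} | lam < 2 ^ τ}) (not_le.1 h))
      (not_le.2 hσ)
  have hτ0 : ℵ₀ ≤ τ := by
    by_contra h
    obtain ⟨n, hn⟩ := Cardinal.lt_aleph0.1 (not_le.1 h)
    have : (2 : Cardinal.{0}) ^ τ < ℵ₀ := by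
      rw [hn]
      exact Cardinal.power_lt_aleph0 (by exact_mod_cast Cardinal.natCast_lt_aleph0 (n := 2))
        Cardinal.natCast_lt_aleph0
    exact absurd (hl.trans hτ.le) (not_le.2 this)
  let T : Type := τ.ord.ToType
  have hTlim : ∀ t : T, ∃ t' : T, t < t' := by
    have h1 : NoMaxOrder T := by
      have h2 : Order.IsSuccLimit τ.ord := Cardinal.isSuccLimit_ord hτ0
      exact Ordinal.isSuccPrelimit_type_lt_iff.1 (by
        have : Ordinal.type (α := T) (· < ·) = τ.ord := Ordinal.type_toType _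
        rw [this]
        exact h2.isSuccPrelimit)
    intro t
    exact exists_gt t
  let X : Type := Lex (T → Bool)
  have hX : #X = 2 ^ τ := by
    show #(T → Bool) = 2 ^ τ
    rw [← Cardinal.power_def]
    simp [T]
  let C0 : Set X := {f | ∃ t : T, ∀ s, t ≤ s → ofLex f s = false}
  have hC0 : #C0 ≤ lam := by
    let g : C0 → Σ t : T, (Set.Iio t → Bool) := fun f =>
      ⟨Classical.choose f.2, fun s => ofLex f.1 s.1⟩
    have hg : Function.Injective g := by
      intro f f' hff
      have h1 := Classical.choose_spec f.2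
      have h2 := Classical.choose_spec f'.2
      have h3 : Classical.choose f.2 = Classical.choose f'.2 := congrArg Sigma.fst hff
      refine Subtype.ext (ofLex.injective (funext fun s => ?_))
      by_cases hs : s < Classical.choose f.2
      · have h4 : ∀ (t t' : T) (a : Set.Iio t → Bool) (b : Set.Iio t' → Bool),
            (⟨t, a⟩ : Σ t : T, (Set.Iio t → Bool)) = ⟨t', b⟩ → ∀ (h : s < t) (h' : s < t'),
            a ⟨s, h⟩ = b ⟨s, h'⟩ := by
          intro t t' a b hab h h'
          obtain ⟨rfl, h5⟩ := Sigma.mk.inj_iff.1 hab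
          rw [eq_of_heq h5]
        exact h4 _ _ _ _ hff hs (h3 ▸ hs)
      · rw [h1 s (not_lt.1 hs), h2 s (h3 ▸ not_lt.1 hs)]
    refine (Cardinal.mk_le_of_injective hg).trans ?_
    rw [Cardinal.mk_sigma]
    calc Cardinal.sum (fun t : T => #(Set.Iio t → Bool))
        ≤ Cardinal.sum (fun _ : T => lam) := by
          refine Cardinal.sum_le_sum _ _ fun t => ?_
          rw [← Cardinal.power_def]
          have h5 : #(Set.Iio t) < τ := by
            have := Cardinal.mk_Iio_toType_ord_lt t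
            exact this
          simpa using hlt _ h5
      _ = τ * lam := by rw [Cardinal.sum_const', Cardinal.mk_ord_toType]
      _ ≤ lam * lam := mul_le_mul' hτl le_rfl
      _ = lam := Cardinal.mul_eq_self hl
  let R0 : Set X := C0ᶜ
  have hR0 : lam < #R0 := by
    by_contra h
    have h1 : #X ≤ lam := by
      rw [← Cardinal.mk_sum_compl C0]
      exact (add_le_add hC0 (not_lt.1 h)).trans (Cardinal.add_eq_self hl).le
    rw [hX] at h1
    exact absurd hτ (not_lt.2 h1)
  have hdense : ∀ r ∈ R0, ∀ s ∈ R0, r < s → ∃ q ∈ C0, r < q ∧ q < s := by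
    intro r _ s hs hrs
    obtain ⟨t0, ht0, ht0'⟩ := hrs
    have hs0 : s t0 = true := by
      cases h : s t0
      · rw [h] at ht0'
        exact absurd ht0' (by simp)
      · rfl
    have hr0 : r t0 = false := by
      cases h : r t0
      · rfl
      · rw [h, hs0] at ht0'
        exact absurd ht0' (lt_irrefl _)
    let q : X := toLex fun t => if t ≤ t0 then s t else false
    have hq1 : ∀ t, t ≤ t0 → q t = s t := fun t ht => by
      show (if t ≤ t0 then s t else false) = s t
      rw [if_pos ht]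
    have hq2 : ∀ t, t0 < t → q t = false := fun t ht => by
      show (if t ≤ t0 then s t else false) = false
      rw [if_neg (not_le.2 ht)]
    obtain ⟨t1, ht1⟩ := hTlim t0
    refine ⟨q, ⟨t1, fun t ht => hq2 t (ht1.trans_le ht)⟩, ⟨t0, fun t ht => ?_, ?_⟩, ?_⟩
    · exact (ht0 t ht).trans (hq1 t ht.le).symm
    · show r t0 < q t0
      rw [hr0, hq1 t0 le_rfl, hs0]
      exact Bool.false_lt_true
    · have h1 : ∃ t, t0 < t ∧ s t = true := by
        by_contra hcon
        push Not at hcon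
        exact hs ⟨t1, fun t ht => by
          have := hcon t (ht1.trans_le ht)
          exact Bool.eq_false_iff.2 this⟩
      let W : Set T := {t | t0 < t ∧ s t = true}
      have hW : W.Nonempty := h1
      let t2 := WellFounded.min (wellFounded_lt (α := T)) W hW
      have ht2 : t2 ∈ W := WellFounded.min_mem _ _ _
      refine ⟨t2, fun t ht => ?_, ?_⟩
      · by_cases htt : t ≤ t0
        · exact hq1 t htt
        · rw [hq2 t (not_le.1 htt)]
          by_contra hne
          have h3 : s t = true := by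
            cases h : s t
            · exact absurd h.symm hne
            · rfl
          exact absurd ht (WellFounded.not_lt_min (wellFounded_lt (α := T)) W ⟨not_le.1 htt, h3⟩)
      · show q t2 < s t2
        rw [hq2 t2 ht2.1, ht2.2]
        exact Bool.false_lt_true
  exact ⟨X, inferInstance, C0, R0, hC0, hR0, hdense⟩

theorem dl_of_lt {lam mu : Cardinal.{0}} (hl : ℵ₀ ≤ lam) (hmu : lam < mu) : DL lam mu := by
  obtain ⟨X, _, C, R, hC, hR, hd⟩ := exists_dense hl
  have hm0 : ℵ₀ ≤ mu := hl.trans hmu.le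
  obtain ⟨R1, hR1, hR1c⟩ : ∃ R1 : Set X, R1 ⊆ R ∧ #R1 = Order.succ lam := by
    have h1 : Order.succ lam ≤ #R := Order.succ_le_of_lt hR
    obtain ⟨R2, hR2⟩ := Cardinal.le_mk_iff_exists_set.1 h1
    refine ⟨Subtype.val '' R2, ?_, ?_⟩
    · rintro _ ⟨r, _, rfl⟩
      exact r.2
    · rw [Cardinal.mk_image_eq Subtype.val_injective, hR2]
  let S : Set X := C ∪ R1
  have hS : #S ≤ mu := by
    refine (Cardinal.mk_union_le _ _).trans ?_
    refine Cardinal.add_le_of_le hm0 (hC.trans hmu.le) ?_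
    rw [hR1c]
    exact Order.succ_le_of_lt hmu
  let f : S → Lex (S ⊕ mu.ord.ToType) := fun x => toLex (Sum.inl x)
  have hf : Function.Injective f := fun a b hab => by simpa [f] using hab
  refine ⟨Lex (S ⊕ mu.ord.ToType), inferInstance, f '' {x | x.1 ∈ C}, f '' {x | x.1 ∈ R1},
    ?_, ?_, ?_, ?_⟩
  · show #(S ⊕ mu.ord.ToType) = mu
    rw [Cardinal.mk_sum, Cardinal.lift_id, Cardinal.lift_id, Cardinal.mk_ord_toType]
    exact Cardinal.add_eq_right hm0 hS
  · refine Cardinal.mk_image_le.trans ?_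
    refine (Cardinal.mk_le_of_injective (f := fun x : {x : S | x.1 ∈ C} => (⟨x.1.1, x.2⟩ : C))
      fun a b hab => ?_).trans hC
    exact Subtype.ext (Subtype.ext (congrArg (fun z : C => z.1) hab))
  · rw [Cardinal.mk_image_eq hf]
    refine (Order.lt_succ lam).trans_le (hR1c.ge.trans ?_)
    exact Cardinal.mk_le_of_injective
      (f := fun x : R1 => (⟨⟨x.1, Or.inr x.2⟩, x.2⟩ : {x : S | x.1 ∈ R1})) fun a b hab =>
        Subtype.ext (congrArg (fun z : {x : S | x.1 ∈ R1} => z.1.1) hab)
  · rintro _ ⟨r, hr, rfl⟩ _ ⟨s, hs, rfl⟩ hrs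
    have hrs' : r < s := Sum.Lex.inl_lt_inl_iff.1 hrs
    obtain ⟨q, hq, h1, h2⟩ := hd r.1 (hR1 hr) s.1 (hR1 hs) hrs'
    exact ⟨_, ⟨⟨q, Or.inl hq⟩, hq, rfl⟩, Sum.Lex.inl_lt_inl_iff.2 h1,
      Sum.Lex.inl_lt_inl_iff.2 h2⟩

end Pool.Agent.H665.UA
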