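import Pool.Graph.R_pool_sql_team_seeded_35f281b4.K7.H47.UC.Main
import Pool.Graph.R_seed8.W879.AE.ERC

set_option autoImplicit false

/-!
# The Hanf number for arbitrary conditions on quantifier-free types
-/

namespace Pool.Agent.H665.UA

open FirstOrder FirstOrder.Language Cardinal Ordinal
open Pool.Agent.K7.H47
open Pool.Agent.W879.AE (del del_lim bethFrom_mono le_bethFrom exists_templateC RealC)
open Pool.Agent.H288R4.LS (bethFrom bethFrom_zero bethFrom_succ hanf self_lt_hanf lt_hanf)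

/-- all conditions are admissible -/
def AdT (α : Type) (_ : (α → Prop) → Prop) : Prop := True

theorem adC_T (lam : Cardinal.{0}) : AdC lam AdT where
  atm := fun _ _ => trivial
  not := fun _ _ _ => trivial
  all := fun _ _ _ _ _ => trivial
  map := fun _ _ _ _ _ => trivial

theorem hp_T {lam : Cardinal.{0}} (hl : ℵ₀ ≤ lam) : HP lam (del lam) (bethFrom lam) AdT := by
  classical
  intro L hf hr Λ hΛ hΛc X _ M _ x hX ι hι Q _ hQ
  let P := Σ n, Fa L (Fin n × Λ)
  have hP : #P ≤ lam := by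
    rw [Cardinal.mk_sigma]
    calc Cardinal.sum (fun n : ℕ => #(Fa L (Fin n × Λ)))
        ≤ Cardinal.sum (fun _ : ℕ => lam) := Cardinal.sum_le_sum _ _ fun n =>
          mk_fa hl hf hr (by
            rw [Cardinal.mk_prod, Cardinal.lift_id, Cardinal.lift_id]
            exact (mul_le_mul' ((Cardinal.lt_aleph0_of_finite _).le.trans hl) hΛc).trans
              (Cardinal.mul_eq_self hl).le)
      _ = ℵ₀ * lam := by rw [Cardinal.sum_const', Cardinal.mk_nat]
      _ ≤ lam * lam := mul_le_mul' hl le_rfl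
      _ = lam := Cardinal.mul_eq_self hl
  have hC : #(Set P) ≤ 2 ^ lam := by
    rw [Cardinal.mk_set]
    exact Cardinal.power_le_power_left two_ne_zero hP
  -- the full type of an increasing tuple
  let ty : ∀ (α : Ordinal.{0}) (n : ℕ), (Fin n ↪o X α) → Set P := fun α n g =>
    {p | ∃ h : p.1 = n, p.2.H fun v => x α (g (Fin.cast h v.1), v.2)}
  let c : ∀ α, ℕ → Finset (X α) → Set P := fun α _ s => ty α s.card (s.orderEmbOfFin rfl)
  obtain ⟨Φ, hΦ⟩ := exists_templateC hl hC ∅ X hX c
  have real : ∀ N : ℕ, ∃ α, α < del lam ∧ ∃ j : Fin N ↪o X α, ∀ n, ∀ g : Fin n ↪o Fin N,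
      ty α n (g.trans j) = Φ n := by
    intro N
    obtain ⟨α, hα, H, hH, hc⟩ := hΦ (N + 1) 0 (by
      have := (del_lim hl).bot_lt
      rwa [Ordinal.bot_eq_zero] at this)
    rw [bethFrom_zero] at hH
    have hHinf : H.Infinite := Set.infinite_coe_iff.1 (Cardinal.infinite_iff.2 (hl.trans hH))
    obtain ⟨s, hs, hsN⟩ := hHinf.exists_subset_card_eq N
    refine ⟨α, hα, s.orderEmbOfFin hsN, fun n g => ?_⟩
    let s' : Finset (X α) := Finset.univ.map (g.trans (s.orderEmbOfFin hsN)).toEmbedding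
    have hs'c : s'.card = n := by simp [s']
    have hs'H : (s' : Set (X α)) ⊆ H := by
      intro y hy
      obtain ⟨i, _, rfl⟩ := Finset.mem_map.1 hy
      exact hs (Finset.orderEmbOfFin_mem s hsN (g i))
    have hn : n < N + 1 := by
      have := Fintype.card_le_of_injective g g.injective
      simp only [Fintype.card_fin] at this
      omega
    have h1 := hc n hn s' hs'H hs'c
    rw [← h1]
    have h3 : s'.orderEmbOfFin hs'c = g.trans (s.orderEmbOfFin hsN) :=
      (Finset.orderEmbOfFin_unique' hs'c fun i =>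
        Finset.mem_map.2 ⟨i, Finset.mem_univ _, rfl⟩).symm
    rw [← h3]
    show ty α n (s'.orderEmbOfFin hs'c) = ty α s'.card (s'.orderEmbOfFin rfl)
    clear h3 h1 hn
    clear_value s'
    subst hs'c
    rfl
  have hty : ∀ (α : Ordinal.{0}) (n : ℕ) (g : Fin n ↪o X α) (f : Fa L (Fin n × Λ)),
      (⟨n, f⟩ : P) ∈ ty α n g ↔ f.H fun v => x α (g v.1, v.2) := by
    intro α n g f
    exact ⟨fun ⟨_, h⟩ => h, fun h => ⟨rfl, h⟩⟩
  let Θ : ∀ n, Fa L (Fin n × Λ) → Prop := fun n f => (⟨n, f⟩ : P) ∈ Φ n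
  refine ⟨Θ, fun N F _ => ?_, fun q => ?_⟩
  · obtain ⟨α, _, j, hj⟩ := real N
    refine ⟨M α, inferInstance, fun v => x α (j v.1, v.2), fun p _ g => ?_⟩
    have h1 := hty α p.1 (g.trans j) p.2
    rw [hj p.1 g] at h1
    exact h1.symm
  · obtain ⟨α, hα, j, hj⟩ := real (Q q).1
    have h1 := hj (Q q).1 (RelEmbedding.refl _)
    have h2 : (fun f => f.H fun v => x α (j v.1, v.2)) = Θ (Q q).1 := by
      funext f
      have h3 := hty α (Q q).1 ((RelEmbedding.refl _).trans j) f
      rw [h1] at h3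
      exact propext h3.symm
    rw [← h2]
    exact hQ q α hα _

theorem hc_T {lam : Cardinal.{0}} (hl : ℵ₀ ≤ lam) : HC lam (del lam) (bethFrom lam) AdT where
  hp := hp_T hl
  ad := adC_T lam
  pos := by
    have := (del_lim hl).bot_lt
    rwa [Ordinal.bot_eq_zero] at this
  cof := by
    intro ι hι g hg
    refine ⟨⨆ i, g i, ?_, fun i => le_ciSup Ordinal.bddAbove_of_small i⟩
    refine Ordinal.iSup_lt_of_lt_cof ?_ hg
    rw [del, (Cardinal.isRegular_succ (hl.trans (Cardinal.cantor lam).le)).cof_ord]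
    exact Order.lt_succ_of_le (hι.trans (Cardinal.cantor lam).le)
  mono := bethFrom_mono lam
  inf := fun α => hl.trans (le_bethFrom lam α)
  lim := by
    intro α hα
    have hlim := del_lim hl
    refine ⟨α + 1 + 1, hlim.add_one_lt (hlim.add_one_lt hα), ?_⟩
    rw [bethFrom_succ lam (α + 1), bethFrom_succ lam α]
    exact Cardinal.cantor _
  big := ⟨0, by
    have := (del_lim hl).bot_lt
    rwa [Ordinal.bot_eq_zero] at this, by rw [bethFrom_zero]⟩

end Pool.Agent.H665.UA
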