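import Pool.Agent.H665.UA.Cf
import Pool.Graph.R_pool_sql_team_seeded_35f281b4.K7.H47.UC.Main

set_option autoImplicit false

/-!
# The universal class of the canonical expansions
-/

namespace Pool.Agent.H665.UA

open FirstOrder FirstOrder.Language Cardinal
open Pool.Agent.H288R4.LS (AEC)
open Pool.Agent.K7.H47 (TE GS Gn gv gv_TE Gn_gv exists_iso mem_Gn range_sub_Gn)

/-- the vocabulary with additional function symbols -/
def LX (L : FirstOrder.Language.{0, 0}) (Λ : Type) : FirstOrder.Language.{0, 0} :=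
  ⟨fun n => L.Functions n ⊕ {_i : Λ // 0 < n}, L.Relations⟩

variable {L : FirstOrder.Language.{0, 0}} {Λ : Type} {K : AEC L}

/-- an additional symbol -/
def nf {n : ℕ} (hn : 0 < n) (i : Λ) : (LX L Λ).Functions n := Sum.inr ⟨i, hn⟩

/-- an old symbol -/
def of {n : ℕ} (f : L.Functions n) : (LX L Λ).Functions n := Sum.inl f

/-- an old relation symbol -/
def orl {n : ℕ} (R : L.Relations n) : (LX L Λ).Relations n := R

/-- the reduct -/
@[reducible] def red (L : FirstOrder.Language.{0, 0}) (Λ A : Type) [(LX L Λ).Structure A] : L.Structure A where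
  funMap := fun f a => Structure.funMap (of (Λ := Λ) f) a
  RelMap := fun R a => Structure.RelMap (orl (Λ := Λ) R) a

/-- the canonical expansion -/
@[reducible] noncomputable def ex (K : AEC L) (Λ N : Type) [L.Structure N] : (LX L Λ).Structure N where
  funMap := fun {_} f a => Sum.elim (fun f : L.Functions _ => Structure.funMap f a)
    (fun i => cf K Λ N i.2 i.1 a) f
  RelMap := fun {n} R a => Structure.RelMap (show L.Relations n from R) a

/-- the two structures agree on the old vocabulary -/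
structure Cmp (L : FirstOrder.Language.{0, 0}) (Λ A : Type) [L.Structure A]
    [(LX L Λ).Structure A] : Prop where
  fn : ∀ {n} (f : L.Functions n) (a : Fin n → A),
    Structure.funMap (of (Λ := Λ) f) a = Structure.funMap f a
  rl : ∀ {n} (R : L.Relations n) (a : Fin n → A),
    Structure.RelMap (orl (Λ := Λ) R) a ↔ Structure.RelMap R a

/-- an isomorphism of expansions is an isomorphism of the reducts -/
def eqL {A B : Type} [L.Structure A] [(LX L Λ).Structure A] [L.Structure B]
    [(LX L Λ).Structure B] (hA : Cmp L Λ A) (hB : Cmp L Λ B) (e : A ≃[LX L Λ] B) : A ≃[L] B where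
  toEquiv := e.toEquiv
  map_fun' := fun f a => by
    rw [← hA.fn, ← hB.fn]
    exact e.map_fun _ _
  map_rel' := fun R a => by
    rw [← hA.rl, ← hB.rl]
    exact e.map_rel _ _

/-- canonical structures: the reduct is a member and the additional functions are canonical -/
structure Can (K : AEC L) (Λ A : Type) [L.Structure A] [(LX L Λ).Structure A] : Prop where
  cmp : Cmp L Λ A
  mem : K.mem A
  can : ∀ {n} (hn : 0 < n) (i : Λ) (a : Fin n → A),
    Structure.funMap (nf (L := L) hn i) a = cf K Λ A hn i a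

theorem ex_can {N : Type} [L.Structure N] (hN : K.mem N) :
    let _ := ex K Λ N
    Can K Λ N := by
  let _ := ex K Λ N
  exact ⟨⟨fun _ _ => rfl, fun _ _ => Iff.rfl⟩, hN, fun _ _ _ => rfl⟩

section

variable {A B : Type} [L.Structure A] [(LX L Λ).Structure A] [L.Structure B]
  [(LX L Λ).Structure B]

/-- isomorphisms of the reducts of canonical structures -/
theorem Can.iso (hI : AInt K) (hU : Rig K) (hA : Can K Λ A) (hB : Can K Λ B) (e : A ≃[L] B) :
    Nonempty (A ≃[LX L Λ] B) := by
  refine ⟨{ toEquiv := e.toEquiv, map_fun' := ?_, map_rel' := ?_ }⟩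
  · intro n f a
    rcases f with f | ⟨i, hn⟩
    · have h1 := hA.cmp.fn f a
      have h2 := hB.cmp.fn f (e ∘ a)
      exact (congrArg e h1).trans ((e.map_fun f a).trans h2.symm)
    · have h1 := hA.can hn i a
      have h2 := hB.can hn i (e ∘ a)
      refine (congrArg e h1).trans (Eq.trans ?_ h2.symm)
      exact cf_nat hI hU (f := e.toEmbedding) (K.emb_equiv e hA.mem) hn i a
  · intro n R a
    exact (hB.cmp.rl (n := n) R (e ∘ a)).trans ((e.map_rel (n := n) R a).trans
      (hA.cmp.rl (n := n) R a).symm)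

/-- the reduct of a substructure -/
def lx (hA : Cmp L Λ A) (S : (LX L Λ).Substructure A) : L.Substructure A where
  carrier := S
  fun_mem := fun f a ha => by
    rw [← hA.fn]
    exact S.fun_mem _ a ha

/-- good substructures -/
structure Gds (K : AEC L) (Λ : Type) {A : Type} [L.Structure A] [(LX L Λ).Structure A]
    (S : L.Substructure A) : Prop where
  mem : K.mem S
  can : ∀ {n} (hn : 0 < n) (i : Λ) (a : Fin n → S),
    (cf K Λ S hn i a).1 = Structure.funMap (nf (L := L) hn i) fun j => (a j).1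

theorem exists_tuple {N : Type} {F : Set N} (hF : F.Finite) (hne : F.Nonempty) :
    ∃ (n : ℕ) (_ : 0 < n) (c : Fin n → N), Set.range c = F := by
  have := hF.to_subtype
  obtain ⟨n, ⟨e⟩⟩ := Finite.exists_equiv_fin F
  obtain ⟨x, hx⟩ := hne
  refine ⟨n, (e ⟨x, hx⟩).pos, fun i => (e.symm i).1, ?_⟩
  ext y
  constructor
  · rintro ⟨i, rfl⟩
    exact (e.symm i).2
  · intro hy
    exact ⟨e ⟨y, hy⟩, by simp⟩

/-- sets closed under the canonical functions are strong submodels -/
theorem strong_of_cf {lam : Cardinal.{0}} (hl : K.LSat lam) (hΛ : #Λ = lam) (hI : AInt K)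
    {N : Type} [L.Structure N] (hN : K.mem N) {S : L.Substructure N} (hne : (S : Set N).Nonempty)
    (h : ∀ {n} (hn : 0 < n) (i : Λ) (a : Fin n → N), (∀ j, a j ∈ S) → cf K Λ N hn i a ∈ S) :
    K.emb S.subtype := by
  refine strong_of_closed hI hN hne fun F hF hFne hFS x hx => ?_
  obtain ⟨n, hn, c, rfl⟩ := exists_tuple hF hFne
  obtain ⟨i, rfl⟩ := cf_surj (Λ := Λ) hl hΛ hN hn c hx
  exact h hn i c fun j => hFS ⟨j, rfl⟩

/-- good substructures are strong in larger good substructures -/
theorem Gds.emb {lam : Cardinal.{0}} (hl : K.LSat lam) (hΛ : #Λ = lam) (hI : AInt K)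
    {S T : L.Substructure A} (hS : Gds K Λ S) (hT : Gds K Λ T) (hne : (S : Set A).Nonempty)
    (h : S ≤ T) : K.emb (Substructure.inclusion h) := by
  let B : L.Substructure T := S.comap T.subtype.toHom
  have hB : K.emb B.subtype := by
    refine strong_of_cf (Λ := Λ) hl hΛ hI hT.mem ?_ ?_
    · obtain ⟨x, hx⟩ := hne
      exact ⟨⟨x, h hx⟩, hx⟩
    · intro n hn i a ha
      show (cf K Λ T hn i a).1 ∈ S
      rw [hT.can hn i a, ← hS.can hn i fun j => (⟨(a j).1, ha j⟩ : S)]
      exact (cf K Λ S hn i _).2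
  have hmap : B.map T.subtype.toHom = S := by
    ext x
    constructor
    · rintro ⟨y, hy, rfl⟩
      exact hy
    · intro hx
      exact ⟨⟨x, h hx⟩, hx, rfl⟩
  obtain ⟨e, he⟩ := exists_eqv hmap
  let g := e.comp (T.subtype.substructureEquivMap B)
  have hg : ∀ x, (g x).1 = x.1.1 := fun x => he _
  have h1 : K.emb g.symm.toEmbedding := K.emb_equiv g.symm hS.mem
  have h2 := K.emb_comp _ _ hB h1
  have : B.subtype.comp g.symm.toEmbedding = Substructure.inclusion h := by
    ext x
    obtain ⟨y, rfl⟩ := g.surjective x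
    show (g.symm (g y)).1.1 = (g y).1
    rw [g.symm_apply_apply, hg]
  rwa [this] at h2

/-- unions of chains of good substructures are good -/
theorem Gds.iSup {lam : Cardinal.{0}} (hl : K.LSat lam) (hΛ : #Λ = lam) (hI : AInt K)
    (hU : Rig K) {ι : Type} [LinearOrder ι] [Nonempty ι] (S : ι → L.Substructure A)
    (hm : Monotone S) (hS : ∀ i, Gds K Λ (S i)) (hne : ∀ i, (S i : Set A).Nonempty) :
    Gds K Λ (⨆ i, S i) := by
  have h1 := K.chain_union S hm fun i j h => Gds.emb hl hΛ hI (hS i) (hS j) (hne i) (hm h)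
  refine ⟨(K.emb_mem _ (h1 (Classical.arbitrary ι))).2, fun {n} hn l a => ?_⟩
  have h2 : ∃ i, ∀ j : Fin n, (a j).1 ∈ S i := by
    have h3 : ∀ j, ∃ i, (a j).1 ∈ S i := fun j =>
      (Substructure.mem_iSup_of_directed hm.directed_le).1 (a j).2
    choose g hg using h3
    obtain ⟨i, hi⟩ := (Set.finite_range g).bddAbove
    exact ⟨i, fun j => hm (hi ⟨j, rfl⟩) (hg j)⟩
  obtain ⟨i, hi⟩ := h2
  have h3 := cf_nat hI hU (h1 i) hn l fun j => (⟨(a j).1, hi j⟩ : S i)
  have e1 : (Substructure.inclusion (le_iSup S i)) ∘ (fun j => (⟨(a j).1, hi j⟩ : S i)) = a := by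
    funext j
    rfl
  rw [e1] at h3
  rw [← h3]
  exact (hS i).can hn l fun j => (⟨(a j).1, hi j⟩ : S i)

end

/-- the class of the canonical expansions, locally -/
def KK (K : AEC L) (Λ A : Type) [(LX L Λ).Structure A] : Prop :=
  ∀ (n : ℕ) (a : Fin n → A), ∃ (N : Type) (_ : L.Structure N), K.mem N ∧ ∃ b : Fin n → N,
    let _ := ex K Λ N
    TE (LX L Λ) a b

section

variable {A : Type} [L.Structure A] [(LX L Λ).Structure A]

theorem GS_good {lam : Cardinal.{0}} (hl : K.LSat lam) (hΛ : #Λ = lam) (hI : AInt K)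
    (hU : Rig K) (hA : Cmp L Λ A) (hK : KK K Λ A) {n : ℕ} (hn : 0 < n) (a : Fin n → A) :
    Gds K Λ (lx hA (GS (LX L Λ) a)) := by
  obtain ⟨N, _, hN, b, hab⟩ := hK n a
  let _ := ex K Λ N
  have hex : Can K Λ N := ex_can hN
  let S := GS (LX L Λ) a
  let T := GS (LX L Λ) b
  have hT : K.emb (lx hex.cmp T).subtype := by
    refine strong_of_cf (Λ := Λ) hl hΛ hI hN ⟨b ⟨0, hn⟩, mem_Gn (L := LX L Λ) (v := b) _⟩ ?_
    intro m hm i c hc
    rw [← hex.can hm i c]
    exact T.fun_mem _ c hc
  have h1 : TE (LX L Λ) (gv (LX L Λ) a) (gv (LX L Λ) b) :=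
    ((gv_TE a).trans hab).trans (gv_TE b).symm
  obtain ⟨e, he⟩ := exists_iso h1 (Gn_gv a) (Gn_gv b)
  let g : lx hA S ≃[L] lx hex.cmp T :=
    { toEquiv := e.toEquiv
      map_fun' := fun {m} f x => by
        have h2 := e.map_fun (of f) x
        refine (congrArg e (Subtype.ext ?_)).trans (h2.trans (Subtype.ext ?_))
        · exact (hA.fn f _).symm
        · exact hex.cmp.fn f _
      map_rel' := fun {m} R x => by
        have h2 := e.map_rel (orl R) x
        exact ((hex.cmp.rl R _).symm.trans h2).trans (hA.rl R _) }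
  have hmT : K.mem (lx hex.cmp T) := (K.emb_mem _ hT).1
  have hmS : K.mem (lx hA S) := mem_equiv g.symm hmT
  refine ⟨hmS, fun {m} hm i c => ?_⟩
  have h3 := cf_nat hI hU (K.emb_comp _ _ hT (K.emb_equiv g hmS)) hm i c
  have h4 : (g (cf K Λ (lx hA S) hm i c)).1 =
      Structure.funMap (nf (L := L) hm i) fun j => (g (c j)).1 := by
    rw [hex.can hm i]
    exact h3
  have h5 := e.map_fun (nf (L := L) hm i) c
  have h6 : (e (Structure.funMap (nf (L := L) hm i) c)).1 =
      Structure.funMap (nf (L := L) hm i) fun j => (e (c j)).1 := congrArg Subtype.val h5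
  have h7 : e (cf K Λ (lx hA S) hm i c) = e (Structure.funMap (nf (L := L) hm i) c) :=
    Subtype.ext (h4.trans h6.symm)
  have h8 := e.injective h7
  exact congrArg Subtype.val h8

theorem GS_eq {M : FirstOrder.Language.{0, 0}} {B V : Type} [M.Structure B] (v : V → B) :
    GS M v = Substructure.closure M (Set.range v) := by
  refine le_antisymm ?_ ((Substructure.closure_le).2 (range_sub_Gn (v := v)))
  rintro _ ⟨t, rfl⟩
  exact t.realize_mem _ fun i => Substructure.subset_closure ⟨i, rfl⟩

theorem closure_good {lam : Cardinal.{0}} (hl : K.LSat lam) (hΛ : #Λ = lam) (hI : AInt K)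
    (hU : Rig K) (hA : Cmp L Λ A) (hK : KK K Λ A) : ∀ (κ : Cardinal.{0}) (X : Set A), #X = κ →
    X.Nonempty → Gds K Λ (lx hA (Substructure.closure (LX L Λ) X)) := by
  intro κ
  induction κ using WellFoundedLT.induction with
  | ind κ ih =>
  intro X hX hne
  rcases lt_or_ge κ ℵ₀ with hκ | hκ
  · obtain ⟨n, hn, c, hc⟩ := exists_tuple
      (Set.finite_coe_iff.1 (Cardinal.lt_aleph0_iff_finite.1 (hX ▸ hκ))) hne
    have h1 := GS_good hl hΛ hI hU hA hK hn c
    rw [GS_eq, hc] at h1
    exact h1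
  have h1 : #κ.ord.ToType = #X := by rw [Cardinal.mk_ord_toType, hX]
  obtain ⟨e⟩ := Cardinal.eq.1 h1
  have : Nonempty κ.ord.ToType := Cardinal.mk_ne_zero_iff.1 (by
    rw [Cardinal.mk_ord_toType]
    exact (Cardinal.aleph0_pos.trans_le hκ).ne')
  let Xi : κ.ord.ToType → Set A := fun i => (fun j => (e j).1) '' Set.Iic i
  have hXi : ∀ i, (Xi i).Nonempty := fun i => ⟨e i, i, Set.mem_Iic.2 le_rfl, rfl⟩
  have hXic : ∀ i, #(Xi i) < κ := by
    intro i
    refine Cardinal.mk_image_le.trans_lt ?_
    have h2 : #(Set.Iic i) ≤ #(Set.Iio i) + 1 := by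
      have : Set.Iic i ⊆ Set.Iio i ∪ {i} := fun j hj => (le_iff_lt_or_eq.1 hj).elim Or.inl
        fun h => Or.inr h
      refine (Cardinal.mk_le_mk_of_subset this).trans ((Cardinal.mk_union_le _ _).trans ?_)
      rw [Cardinal.mk_singleton]
    exact h2.trans_lt (Cardinal.add_lt_of_lt hκ (Cardinal.mk_Iio_toType_ord_lt i)
      (Cardinal.one_lt_aleph0.trans_le hκ))
  let S : κ.ord.ToType → L.Substructure A := fun i =>
    lx hA (Substructure.closure (LX L Λ) (Xi i))
  have hmono : Monotone fun i => Substructure.closure (LX L Λ) (Xi i) := fun i j hij =>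
    Substructure.closure_mono (Set.image_mono (Set.Iic_subset_Iic.2 hij))
  have hSm : Monotone S := fun i j hij => hmono hij
  have h2 := Gds.iSup hl hΛ hI hU S hSm (fun i => ih _ (hXic i) (Xi i) rfl (hXi i)) fun i => by
    obtain ⟨x, hx⟩ := hXi i
    exact ⟨x, Substructure.subset_closure (L := LX L Λ) hx⟩
  have h3 : (⨆ i, S i) = lx hA (Substructure.closure (LX L Λ) X) := by
    have h4 : X = ⋃ i, Xi i := by
      ext x
      constructor
      · intro hx
        exact Set.mem_iUnion.2 ⟨e.symm ⟨x, hx⟩, e.symm ⟨x, hx⟩, Set.mem_Iic.2 le_rfl, by simp⟩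
      · intro hx
        obtain ⟨i, j, _, rfl⟩ := Set.mem_iUnion.1 hx
        exact (e j).2
    ext x
    rw [Substructure.mem_iSup_of_directed hSm.directed_le]
    show _ ↔ x ∈ Substructure.closure (LX L Λ) X
    rw [h4, Substructure.closure_iUnion,
      Substructure.mem_iSup_of_directed hmono.directed_le]
    exact Iff.rfl
  rwa [h3] at h2

/-- the class consists of the canonical expansions -/
theorem KK.can {lam : Cardinal.{0}} (hl : K.LSat lam) (hΛ : #Λ = lam) (hI : AInt K)
    (hU : Rig K) (hA : Cmp L Λ A) (hK : KK K Λ A) [Nonempty A] : Can K Λ A := by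
  have h1 := closure_good hl hΛ hI hU hA hK _ Set.univ rfl Set.univ_nonempty
  have h2 : lx hA (Substructure.closure (LX L Λ) Set.univ) = ⊤ := by
    rw [Substructure.closure_univ]
    rfl
  rw [h2] at h1
  let e := Substructure.topEquiv (L := L) (M := A)
  refine ⟨hA, mem_equiv e h1.mem, fun {n} hn i a => ?_⟩
  have h3 := cf_nat hI hU (K.emb_equiv e h1.mem) hn i fun j => (⟨a j, trivial⟩ :
    (⊤ : L.Substructure A))
  have h4 := h1.can hn i fun j => (⟨a j, trivial⟩ : (⊤ : L.Substructure A))
  exact h4.symm.trans h3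

end

end Pool.Agent.H665.UA
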