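import Pool.Agent.H665.UA.Sp
import Pool.Agent.H665.UA.Lx

set_option autoImplicit false

/-!
# Categoricity transfer for classes with unique isomorphisms between closures
-/

namespace Pool.Agent.H665.UA

open FirstOrder FirstOrder.Language Cardinal
open Pool.Agent.H288R4.LS (AEC bethFrom self_lt_hanf lt_hanf LSat_LS)
open Pool.Agent.W879.AE (del del_lim)
open Pool.Agent.K7.H47

theorem bethFrom_lt_hanf {lam : Cardinal.{0}} (h0 : ℵ₀ ≤ lam) {α : Ordinal.{0}}
    (hα : α < del lam) : bethFrom lam α < Pool.Agent.H288R4.LS.hanf lam := by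
  have h1 : α + 1 < del lam := (del_lim h0).add_one_lt hα
  have h2 := Pool.Agent.H288R4.LS.bethFrom_le_limit lam (del_lim h0) h1
  rw [Pool.Agent.H288R4.LS.bethFrom_succ] at h2
  exact (Cardinal.cantor _).trans_le h2

variable {L : FirstOrder.Language.{0, 0}} {K : AEC L}

/-- the universal class of the canonical expansions -/
noncomputable def uc (hI : AInt K) (hU : Rig K) (μ : Cardinal.{0}) (hμ : K.lsNum < μ)
    (hcat : K.Categorical μ) : UC (LX L K.lsNum.out) where
  K := fun A _ => KK K K.lsNum.out A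
  loc := fun A _ h n a => by
    obtain ⟨B, _, hB, b, hab⟩ := h n a
    obtain ⟨N, i, hN, c, hbc⟩ := hB n b
    let _ := ex K K.lsNum.out N
    exact ⟨N, i, hN, c, TE.trans hab hbc⟩
  lam := K.lsNum
  mu := μ
  hl := (LSat_LS K).1
  hL := by
    have h0 := (LSat_LS K).1
    have h1 := (LSat_LS K).2.1
    let f : (Σ n, (LX L K.lsNum.out).Functions n) →
        (Σ n, L.Functions n) ⊕ (ℕ × K.lsNum.out) := fun x => match x with
      | ⟨n, Sum.inl g⟩ => .inl ⟨n, g⟩
      | ⟨n, Sum.inr i⟩ => .inr (n, i.1)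
    have hf : Function.Injective f := by
      rintro ⟨n, g | i⟩ ⟨m, g' | i'⟩ h
      · have := Sum.inl.inj h
        cases this
        rfl
      · cases h
      · cases h
      · have := Sum.inr.inj h
        obtain ⟨rfl, h2⟩ := Prod.mk.inj this
        have h3 : i = i' := Subtype.ext h2
        rw [h3]
    refine (Cardinal.mk_le_of_injective hf).trans ?_
    rw [Cardinal.mk_sum, Cardinal.lift_id, Cardinal.lift_id, Cardinal.mk_prod,
      Cardinal.lift_id, Cardinal.lift_id, Cardinal.mk_nat, Cardinal.mk_out]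
    refine (add_le_add ?_ ((mul_le_mul' h0 le_rfl).trans (Cardinal.mul_eq_self h0).le)).trans
      (Cardinal.add_eq_self h0).le
    refine le_trans ?_ h1
    show #(Σ n, L.Functions n) ≤ #((Σ l, L.Functions l) ⊕ Σ l, L.Relations l)
    exact Cardinal.mk_le_of_injective Sum.inl_injective
  hm := hμ
  cat := fun A B _ _ hA hB hAc hBc => by
    let _ := red L K.lsNum.out A
    let _ := red L K.lsNum.out B
    have h0 := (LSat_LS K).1
    have hne : ∀ C : Type, #C = μ → Nonempty C := fun C hC => Cardinal.mk_ne_zero_iff.1 (by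
      rw [hC]
      exact (Cardinal.aleph0_pos.trans_le (h0.trans hμ.le)).ne')
    have := hne A hAc
    have := hne B hBc
    have cA : Cmp L K.lsNum.out A := ⟨fun _ _ => rfl, fun _ _ => Iff.rfl⟩
    have cB : Cmp L K.lsNum.out B := ⟨fun _ _ => rfl, fun _ _ => Iff.rfl⟩
    have h1 := KK.can (LSat_LS K) (Cardinal.mk_out _) hI hU cA hA
    have h2 := KK.can (LSat_LS K) (Cardinal.mk_out _) hI hU cB hB
    obtain ⟨e⟩ := hcat.2 A B h1.mem h2.mem hAc hBc
    exact h1.iso hI hU h2 e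

theorem ex_mem {N : Type} [L.Structure N] (hN : K.mem N) (Λ : Type) :
    let _ := ex K Λ N
    KK K Λ N := by
  intro _ n a
  exact ⟨N, inferInstance, hN, a, TE.rfl'⟩

/-- members generated by sets all of whose permutations extend to automorphisms -/
def SG (K : AEC L) (M : Type) [L.Structure M] : Prop :=
  ∃ S : Set M, #S = #M ∧ (∀ A : L.Substructure M, K.emb A.subtype → S ⊆ A → A = ⊤) ∧
    ∀ π : Equiv.Perm S, ∃ g : M ≃[L] M, ∀ s : S, g s = π s

theorem main (hI : AInt K) (hU : Rig K) (hbig : ∀ χ : Cardinal.{0}, χ < K.H1 →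
      ∃ (M : Type) (_ : L.Structure M), K.mem M ∧ χ ≤ #M) (μ : Cardinal.{0}) (hμ : K.lsNum < μ)
    (hcat : K.Categorical μ) :
    ∃ κ : Cardinal.{0}, K.lsNum < κ ∧ κ ≤ μ ∧ κ < K.H1 ∧
      (∀ μ' : Cardinal.{0}, κ ≤ μ' → K.Categorical μ') ∧
      ∀ (M : Type) [L.Structure M], K.mem M → κ ≤ #M → SG K M := by
  classical
  have hls := LSat_LS K
  have h0 := hls.1
  have hlt : K.lsNum < K.H1 := self_lt_hanf h0
  have hΛ : #K.lsNum.out = K.lsNum := Cardinal.mk_out _
  let Λ := K.lsNum.out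
  let U := uc hI hU μ hμ hcat
  obtain ⟨Ψ, hΨ, β, hβ, hlβ, hgen⟩ := exists_mains (U := U)
    (h := hc_T (lam := K.lsNum) h0)
    (by
      refine ⟨ℕ, fun n => ⟨n, fun p => ∃ (N : Type) (_ : L.Structure N), K.mem N ∧
        ∃ b : Fin n → N, let _ := ex K Λ N; ∀ f : Fa (LX L Λ) (Fin n), p f ↔ f.H b⟩, ?_, ?_, ?_⟩
      · rw [Cardinal.mk_nat]
        exact h0
      · intro k
        trivial
      · intro A _
        exact Iff.rfl)
    (by
      refine le_trans ?_ hls.2.1
      show #(Σ n, L.Relations n) ≤ #((Σ l, L.Functions l) ⊕ Σ l, L.Relations l)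
      exact Cardinal.mk_le_of_injective Sum.inr_injective)
    (fun α hα => by
      obtain ⟨M, _, hM, hMc⟩ := hbig _ (bethFrom_lt_hanf h0 hα)
      exact ⟨M, ex K Λ M, ex_mem hM Λ, hMc⟩)
  have hlβ' : K.lsNum < bethFrom K.lsNum β := hlβ
  let κ := min μ (bethFrom K.lsNum β)
  have hlκ : K.lsNum < κ := lt_min hμ hlβ'
  refine ⟨κ, hlκ, min_le_left _ _, (min_le_right _ _).trans_lt (bethFrom_lt_hanf h0 hβ),
    fun μ' hμ' => ⟨?_, ?_⟩, ?_⟩
  · obtain ⟨G, iG, hG, hGc⟩ := hΨ.size (κ := μ') (hlκ.le.trans hμ')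
    let _ := red L Λ G
    have : Nonempty G := Cardinal.mk_ne_zero_iff.1 (by
      rw [hGc]
      exact (Cardinal.aleph0_pos.trans_le (h0.trans (hlκ.le.trans hμ'))).ne')
    have cG : Cmp L Λ G := ⟨fun _ _ => rfl, fun _ _ => Iff.rfl⟩
    exact ⟨G, red L Λ G, (KK.can hls hΛ hI hU cG hG).mem, hGc⟩
  · intro M N _ _ hM hN hMc hNc
    let _ := ex K Λ M
    let _ := ex K Λ N
    obtain ⟨X, J, hJ, hJG⟩ := hgen M (ex_mem hM Λ) (by rw [hMc]; exact hμ')
    obtain ⟨Y, J', hJ', hJG'⟩ := hgen N (ex_mem hN Λ) (by rw [hNc]; exact hμ')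
    have h1 : #X = #M := hJ.card (U := U) hJG (by rw [hMc]; exact hlκ.trans_le hμ')
    have h2 : #Y = #N := hJ'.card (U := U) hJG' (by rw [hNc]; exact hlκ.trans_le hμ')
    obtain ⟨e⟩ := Cardinal.eq.1 ((h1.trans (hMc.trans hNc.symm)).trans h2.symm)
    obtain ⟨g, -⟩ := hJ.iso hJG hJ' hJG' e
    exact ⟨eqL (ex_can hM).cmp (ex_can hN).cmp g⟩
  · intro M _ hM hMc
    let _ := ex K Λ M
    have hcan := ex_can (Λ := Λ) hM
    obtain ⟨X, J, hJ, hJG⟩ := hgen M (ex_mem hM Λ) hMc
    have h1 : #X = #M := hJ.card (U := U) hJG (hlκ.trans_le hMc)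
    refine ⟨Set.range J, (Cardinal.mk_range_eq _ hJ.1).trans h1, ?_, ?_⟩
    · intro A hA hS
      let B : (LX L Λ).Substructure M :=
        { carrier := A
          fun_mem := by
            rintro n (f | ⟨i, hn⟩) c hc
            · exact A.fun_mem f c hc
            · refine cl_le hA ?_ (cf_mem (K := K) M hn i c)
              rintro _ ⟨j, rfl⟩
              exact hc j }
      refine top_unique fun x _ => ?_
      have h2 : x ∈ Gn (LX L Λ) J := hJG ▸ Set.mem_univ x
      obtain ⟨t, rfl⟩ := h2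
      have h3 : t.realize J ∈ B := t.realize_mem _ fun i => hS ⟨i, rfl⟩
      exact h3
    · intro π
      let E : X ≃ Set.range J := Equiv.ofInjective J hJ.1
      obtain ⟨g, hg⟩ := hJ.iso hJG hJ hJG ((E.trans π).trans E.symm)
      refine ⟨eqL hcan.cmp hcan.cmp g, fun s => ?_⟩
      obtain ⟨i, rfl⟩ := E.surjective s
      show g (J i) = π (E i)
      rw [hg i]
      exact Equiv.apply_ofInjective_symm hJ.1 (π (E i))

end Pool.Agent.H665.UA
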