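import Pool.Agent.H665.UA.Up

set_option autoImplicit false

/-!
# Universal classes categorical in some cardinal above the Löwenheim number
-/

namespace Pool.Agent.H665.UA

open FirstOrder FirstOrder.Language Cardinal Ordinal
open Pool.Agent.K7.H47

variable {L : FirstOrder.Language.{0, 0}} {U : UC L}

theorem exists_EMt' {δ : Ordinal.{0}} {bt : Ordinal.{0} → Cardinal.{0}}
    {Ad : ∀ α : Type, ((α → Prop) → Prop) → Prop} (h : HC U.lam δ bt Ad) (hK : KAx U Ad)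
    (hR : #(Σ n, L.Relations n) ≤ U.lam)
    (hb : ∀ α, α < δ → ∃ (A : Type) (_ : L.Structure A), U.K A ∧ bt α ≤ #A) :
    ∃ Θ, EMt U Θ := by
  classical
  have hl := U.hl
  obtain ⟨κ, B, hκ, hB, hBK⟩ := hK
  have hb' : ∀ α : Ordinal.{0}, ∃ (A : Type) (_ : L.Structure A), U.K A ∧
      (α < δ → bt α ≤ #A) := by
    intro α
    by_cases hα : α < δ
    · obtain ⟨A, _, hA, hA'⟩ := hb α hα
      exact ⟨A, inferInstance, hA, fun _ => hA'⟩
    · obtain ⟨A, _, hA, -⟩ := hb 0 h.pos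
      exact ⟨A, inferInstance, hA, fun h => absurd h hα⟩
  choose A iA hA hAc using hb'
  have hIA : ∀ α, #(#(A α)).ord.ToType = #(A α) := fun α => Cardinal.mk_ord_toType _
  have hE : ∀ α, Nonempty ((#(A α)).ord.ToType ≃ A α) := fun α => Cardinal.eq.1 (hIA α)
  let E : ∀ α, (#(A α)).ord.ToType ≃ A α := fun α => Classical.choice (hE α)
  let Q : Unit → Σ m, ((Fa L (Fin m × Unit) → Prop) → Prop) := fun _ =>
    ⟨2, fun v => ¬ v (.eq (.var (0, ())) (.var (1, ())))⟩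
  obtain ⟨Θ, hΘQ, hΘ⟩ := h.hp.sent hl h.ad U.hL hR (Λ := Unit) ⟨()⟩
    ((Cardinal.lt_aleph0_of_finite _).le.trans hl) (fun α => (#(A α)).ord.ToType) (fun α => A α)
    (fun α v => E α v.1) (fun α hα => (hAc α hα).trans (hIA α).ge) (ι := Unit)
    ((Cardinal.lt_aleph0_of_finite _).le.trans hl) Q (fun _ => h.ad.not _ _ (h.ad.atm _ _))
    (fun _ α _ (g : Fin 2 ↪o (#(A α)).ord.ToType) => by
      intro h2
      have h3 : E α (g 0) = E α (g 1) := h2
      exact absurd (g.injective ((E α).injective h3)) (by decide)) hκ B hB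
    (fun k α _ => (hBK (A α)).1 (hA α) k)
  refine ⟨Θ, fun I _ => ?_⟩
  obtain ⟨G, _, e, he, hG, hGK⟩ := hΘ I
  refine ⟨G, inferInstance, e, (hBK G).2 hGK, he, hG, ?_⟩
  have key : ∀ i j : I, i < j → e (i, ()) ≠ e (j, ()) := by
    intro i j hij heq
    have hφ : StrictMono ![i, j] := by
      intro a b hab
      fin_cases a <;> fin_cases b <;> simp_all
    have h2 : ¬ Θ 2 (.eq (.var (0, ())) (.var (1, ()))) := hΘQ ()
    rw [← he 2 (OrderEmbedding.ofStrictMono _ hφ)] at h2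
    exact h2 heq
  rintro ⟨i, _⟩ ⟨j, _⟩ hij
  rcases lt_trichotomy i j with h2 | h2 | h2
  · exact absurd hij (key i j h2)
  · rw [h2]
  · exact absurd hij.symm (key j i h2)

/-- the spectrum form of the main theorem on universal classes -/
theorem exists_mains {δ : Ordinal.{0}} {bt : Ordinal.{0} → Cardinal.{0}}
    {Ad : ∀ α : Type, ((α → Prop) → Prop) → Prop} (h : HC U.lam δ bt Ad) (hK : KAx U Ad)
    (hR : #(Σ n, L.Relations n) ≤ U.lam)
    (hb : ∀ α, α < δ → ∃ (A : Type) (_ : L.Structure A), U.K A ∧ bt α ≤ #A) :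
    ∃ Ψ : Tp L, U.Gd Ψ ∧ ∃ β, β < δ ∧ U.lam < bt β ∧ ∀ (A : Type) [L.Structure A], U.K A →
      min U.mu (bt β) ≤ #A → ∃ (X : Type) (J : X → A), Sy Ψ J ∧ Gn L J = Set.univ := by
  obtain ⟨Θ, hΘ⟩ := exists_EMt' h hK hR hb
  obtain ⟨α1, hα1, hop⟩ := op_bound h hK hR hΘ.few (dl_of_lt U.hl U.hm)
  obtain ⟨Φ, hΦ⟩ := hΘ.gd hop
  obtain ⟨Ψ, hΨ, hNV⟩ := exists_nv (X := U.mu.out) hΦ (Cardinal.mk_out _)
  obtain ⟨α2, hα2, hnv⟩ := nv_bound h hK hR (Cardinal.mk_out _) hNV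
  obtain ⟨α0, hα0, hbig⟩ := h.big
  let α := max α0 (max α1 α2)
  have hα : α < δ := max_lt hα0 (max_lt hα1 hα2)
  have hlα : U.lam ≤ bt α := hbig.trans (h.mono (le_max_left _ _))
  obtain ⟨β, hβ, hβ'⟩ := h.lim α hα
  refine ⟨Ψ, hΨ, β, hβ, (hlα.trans (Cardinal.cantor _).le).trans_lt hβ', ?_⟩
  intro A _ hA hAb
  rcases le_total U.mu (bt β) with hμβ | hβμ
  · rw [min_eq_left hμβ] at hAb
    exact exists_gen_up hΨ (Cardinal.mk_out _) hNV hA hAb
  · rw [min_eq_right hβμ] at hAb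
    refine exists_gen hΨ hR (χ := bt α) hlα (((Cardinal.cantor _).trans hβ').le.trans hβμ) ?_ ?_
      hA (hβ'.trans_le hAb)
    · intro A _ hA n f I _ c b b' hO
      exact (hop A hA n f I c b b' hO).le.trans
        (h.mono ((le_max_left _ _).trans (le_max_right _ _)))
    · intro A _ hA X J hJ hX hG
      exact hnv A hA X J hJ ((h.mono ((le_max_right _ _).trans (le_max_right _ _))).trans hX) hG

end Pool.Agent.H665.UA
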