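import Pool.Agent.H665.UA.Dl

set_option autoImplicit false

/-!
# Upward transfer in universal classes
-/

namespace Pool.Agent.H665.UA

open FirstOrder FirstOrder.Language Cardinal Ordinal
open Pool.Agent.K7.H47

variable {L : FirstOrder.Language.{0, 0}} {V W X Y T P S : Type} {A B C : Type} [L.Structure A]
  [L.Structure B] [L.Structure C] {U : UC L}

/-- the sets closed under a function on finite sets -/
theorem exists_closed {X : Type} (c : Finset X → Set X) (hc : ∀ F, (c F).Finite)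
    (κ : Cardinal.{0}) (hκ : ℵ₀ ≤ κ) (A : Set X) (hA : #A ≤ κ) :
    ∃ W : Set X, A ⊆ W ∧ #W ≤ κ ∧ ∀ F : Finset X, (↑F : Set X) ⊆ W → c F ⊆ W := by
  classical
  let nxt : Set X → Set X := fun W => W ∪ ⋃ F : {F : Finset X // (↑F : Set X) ⊆ W}, c F.1
  let W : ℕ → Set X := fun n => nxt^[n] A
  have hWs : ∀ n, W (n + 1) = nxt (W n) := fun n => Function.iterate_succ_apply' nxt n A
  have hW : ∀ n, #(W n) ≤ κ := by
    intro n
    induction n with
    | zero => exact hA
    | succ n ih =>
        rw [hWs]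
        refine (Cardinal.mk_union_le _ _).trans (Cardinal.add_le_of_le hκ ih ?_)
        refine mk_iUnion_fin hκ _ (fun F => (hc F.1).countable) ?_
        have : #{F : Finset X // (↑F : Set X) ⊆ W n} ≤ #(Finset (W n)) := by
          refine Cardinal.mk_le_of_injective (f := fun F => F.1.subtype (· ∈ W n)) ?_
          rintro ⟨F, hF⟩ ⟨G, hG⟩ h
          apply Subtype.ext
          ext x
          have h' : F.subtype (· ∈ W n) = G.subtype (· ∈ W n) := h
          constructor
          · intro hx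
            have hx' : (⟨x, hF hx⟩ : W n) ∈ F.subtype (· ∈ W n) := by simpa using hx
            rw [h'] at hx'
            simpa using hx'
          · intro hx
            have hx' : (⟨x, hG hx⟩ : W n) ∈ G.subtype (· ∈ W n) := by simpa using hx
            rw [← h'] at hx'
            simpa using hx'
        refine this.trans ?_
        rcases finite_or_infinite (W n) with hf | hf
        · exact (Cardinal.lt_aleph0_of_finite _).le.trans hκ
        · rw [Cardinal.mk_finset_of_infinite]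
          exact ih
  have hm : Monotone W := monotone_nat_of_le_succ fun n => by
    rw [hWs]
    exact Set.subset_union_left
  refine ⟨⋃ n, W n, Set.subset_iUnion W 0, ?_, ?_⟩
  · refine (Cardinal.mk_iUnion_le_sum_mk (f := W)).trans ?_
    calc Cardinal.sum (fun n => #(W n)) ≤ Cardinal.sum (fun _ : ℕ => κ) :=
          Cardinal.sum_le_sum _ _ hW
      _ = ℵ₀ * κ := by rw [Cardinal.sum_const', Cardinal.mk_nat]
      _ ≤ κ * κ := mul_le_mul' hκ le_rfl
      _ = κ := Cardinal.mul_eq_self hκ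
  · intro F hF
    obtain ⟨n, hn⟩ : ∃ n, (F : Set X) ⊆ W n := by
      have h1 : ∀ x ∈ F, ∃ n, x ∈ W n := fun x hx => Set.mem_iUnion.1 (hF hx)
      choose! f hf using h1
      exact ⟨F.sup f, fun x hx => hm (Finset.le_sup hx) (hf x hx)⟩
    refine Set.Subset.trans ?_ (Set.subset_iUnion W (n + 1))
    rw [hWs]
    exact (Set.subset_iUnion (fun F : {F : Finset X // (↑F : Set X) ⊆ W n} => c F.1)
      ⟨F, hn⟩).trans Set.subset_union_right

/-- finite supports over large families -/
theorem exists_spt_up {Φ : Tp L} (hΦ : U.Gd Φ) (hA : U.K A) {y : Y → A} (hy : Sy Φ y)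
    (hY : U.mu ≤ #Y) [Finite T] (a : T → A) : ∃ s : Set Y, s.Finite ∧ Spt (L := L) y a s := by
  classical
  have hm0 : ℵ₀ ≤ U.mu := U.hl.trans U.hm.le
  by_contra hcon
  push Not at hcon
  have h1 : ∀ s : Finset Y, ∃ (n : ℕ) (g g' : Fin n ↪ Y),
      (∀ i, g i ∈ s ∨ g' i ∈ s → g i = g' i) ∧
      ¬ TE L (Sum.elim (y ∘ g) a) (Sum.elim (y ∘ g') a) := by
    intro s
    have h2 := hcon s s.finite_toSet
    unfold Spt at h2
    push Not at h2
    exact h2
  choose n g g' hg hn using h1
  obtain ⟨Z0, hZ0⟩ := Cardinal.le_mk_iff_exists_set.1 hY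
  obtain ⟨Z, hZ0Z, hZc, hZ⟩ := exists_closed (fun s => Set.range (g s) ∪ Set.range (g' s))
    (fun s => (Set.finite_range _).union (Set.finite_range _)) U.mu hm0 Z0 hZ0.le
  have hZmu : #Z = U.mu := le_antisymm hZc (hZ0 ▸ Cardinal.mk_le_mk_of_subset hZ0Z)
  have hx : Sy Φ (fun z : Z => y z) := hy.comp (Function.Embedding.subtype _)
  obtain ⟨s0, hs0, hspt⟩ := hΦ.exists_spt hA hx hZmu a
  let s : Finset Y := (hs0.image Subtype.val).toFinset
  have hs : ∀ z : Z, z.1 ∈ s ↔ z ∈ s0 := by
    intro z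
    simp [s]
  have hsZ : (s : Set Y) ⊆ Z := by
    intro z hz
    have hz' : z ∈ Subtype.val '' s0 := by simpa [s] using hz
    obtain ⟨w, _, rfl⟩ := hz'
    exact w.2
  have hgZ : ∀ i, g s i ∈ Z := fun i => hZ s hsZ (Or.inl ⟨i, rfl⟩)
  have hgZ' : ∀ i, g' s i ∈ Z := fun i => hZ s hsZ (Or.inr ⟨i, rfl⟩)
  refine hn s ?_
  exact hspt (n s) ⟨fun i => ⟨g s i, hgZ i⟩, fun i j hij =>
      (g s).injective (congrArg Subtype.val hij)⟩
    ⟨fun i => ⟨g' s i, hgZ' i⟩, fun i j hij => (g' s).injective (congrArg Subtype.val hij)⟩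
    fun i hi => Subtype.ext (hg s i (hi.imp (hs _).2 (hs _).2))

/-- no Vaughtian pairs over larger families -/
theorem nv_up {Ψ : Tp L} (hΨ : U.Gd Ψ) (hX : #X = U.mu) (hNV : NV U Ψ X) (hY : U.mu ≤ #Y) :
    NV U Ψ Y := by
  classical
  have hm0 : ℵ₀ ≤ U.mu := U.hl.trans U.hm.le
  intro A _ y a hA hy ha
  obtain ⟨s, hs, hspt⟩ := exists_spt_up hΨ hA hy hY a
  obtain ⟨Z0, hZ0⟩ := Cardinal.le_mk_iff_exists_set.1 hY
  let Z : Set Y := Z0 ∪ s
  have hZ : #Z = U.mu := by
    refine le_antisymm ((Cardinal.mk_union_le _ _).trans ?_) ?_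
    · exact Cardinal.add_le_of_le hm0 hZ0.le (hs.lt_aleph0.le.trans hm0)
    · rw [← hZ0]
      exact Cardinal.mk_le_mk_of_subset Set.subset_union_left
  have hZinf : Z.Infinite := Set.infinite_coe_iff.1 (Cardinal.infinite_iff.2 (by rw [hZ]; exact hm0))
  obtain ⟨e⟩ := Cardinal.eq.1 (hX.trans hZ.symm)
  let x : X → A := fun i => y (e i)
  have hx : Sy Ψ x := hy.comp (e.toEmbedding.trans (Function.Embedding.subtype _))
  obtain ⟨z, hz, hzS⟩ := hNV A x a hA hx fun h => ha (Gn_sub (w := x)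
    (fun i => mem_Gn (v := y) (e i).1) h)
  refine ⟨z, ?_, ?_⟩
  · refine Gn_sub (w := Sum.elim x a) ?_ hz
    rintro (i | i)
    · exact mem_Gn (v := Sum.elim y a) (.inl (e i).1)
    · exact mem_Gn (v := Sum.elim y a) (.inr i)
  · obtain ⟨t, ht⟩ := hz
    let H : Set Y := (fun i => (e i).1) '' (Sum.inl ⁻¹' tv t)
    have hH : H.Finite := ((tv_fin t).preimage Sum.inl_injective.injOn).image _
    let R : Set Y := s ∪ H
    have hR : R.Finite := hs.union hH
    have hRZ : R ⊆ Z := by
      rintro r (hr | ⟨i, _, rfl⟩)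
      · exact Or.inr hr
      · exact (e i).2
    refine Sy.sum_loc fun n g => ?_
    have hGf : (Set.range g ∪ R).Finite := (Set.finite_range g).union hR
    have := hGf.to_subtype
    obtain ⟨m, ⟨E⟩⟩ := Finite.exists_equiv_fin (Set.range g ∪ R : Set Y)
    let G : Fin m ↪ Y := E.symm.toEmbedding.trans (Function.Embedding.subtype _)
    obtain ⟨q, hqZ, hq⟩ := exists_move G hR hZinf fun i hi => hRZ hi
    have h1 := hspt m G q fun i hi => hq i (hi.imp Or.inl Or.inl)
    obtain ⟨t', ht'⟩ := lift_tv t (S := tv t) subset_rfl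
    have hvar : ∀ v : tv t, ∃ w : Fin m ⊕ Unit,
        Sum.elim (y ∘ G) a w = Sum.elim x a v.1 ∧ Sum.elim (y ∘ q) a w = Sum.elim x a v.1 := by
      rintro ⟨v, hv⟩
      rcases v with i | u
      · have hi : (e i).1 ∈ R := Or.inr ⟨i, hv, rfl⟩
        refine ⟨.inl (E ⟨(e i).1, Or.inr hi⟩), ?_, ?_⟩
        · show y (G _) = y _
          simp [G]
        · have h2 : G (E ⟨(e i).1, Or.inr hi⟩) = (e i).1 := by simp [G]
          show y (q _) = y _
          rw [← hq _ (Or.inl (by rw [h2]; exact hi)), h2]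
      · exact ⟨.inr u, rfl, rfl⟩
    choose w hw1 hw2 using hvar
    let ι : Fin n → Fin m := fun i => E ⟨g i, Or.inl ⟨i, rfl⟩⟩
    have hι : ∀ i, G (ι i) = g i := fun i => by simp [G, ι]
    have hιi : Function.Injective ι := fun i j hij => g.injective (by rw [← hι i, ← hι j, hij])
    have h2 := h1.tm (Sum.elim (fun i : Fin n => Term.var (.inl (ι i)))
      fun _ : Unit => t'.subst fun v => Term.var (w v))
    have hreal : ∀ b : Fin m ⊕ Unit → A, (∀ v, b (w v) = Sum.elim x a v.1) →
        (t'.subst fun v => Term.var (w v)).realize b = z () := by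
      intro b hb
      rw [Term.realize_subst, ← ht]
      show _ = t.realize (Sum.elim x a)
      conv_rhs => rw [← ht']
      rw [Term.realize_subst]
      congr 1
      funext v
      exact hb v
    have e1 : ∀ (c : Fin m → A), (∀ v, Sum.elim c a (w v) = Sum.elim x a v.1) →
        (fun u => ((Sum.elim (fun i : Fin n => Term.var (.inl (ι i)))
          (fun _ : Unit => t'.subst fun v => Term.var (w v)) u : L.Term (Fin m ⊕ Unit))).realize
          (Sum.elim c a)) = Sum.elim (c ∘ ι) z := by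
      intro c hc
      funext u
      rcases u with u | u
      · rfl
      · exact hreal _ hc
    rw [e1 _ hw1, e1 _ hw2] at h2
    have e2 : (y ∘ G) ∘ ι = y ∘ g := funext fun i => congrArg y (hι i)
    rw [e2] at h2
    refine Sy.congr ?_ h2.symm
    have h3 := hzS.comp (⟨Sum.map (fun i => e.symm ⟨q (ι i), hqZ _⟩) id,
      Function.Injective.sumMap (fun i j hij => hιi (q.injective (by
        have := e.symm.injective hij
        exact congrArg Subtype.val this))) Function.injective_id⟩ : Fin n ⊕ Unit ↪ X ⊕ Unit)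
    have e3 : Sum.elim x z ∘ (⟨Sum.map (fun i => e.symm ⟨q (ι i), hqZ _⟩) id,
      Function.Injective.sumMap (fun i j hij => hιi (q.injective (by
        have := e.symm.injective hij
        exact congrArg Subtype.val this))) Function.injective_id⟩ : Fin n ⊕ Unit ↪ X ⊕ Unit) =
        Sum.elim ((y ∘ q) ∘ ι) z := by
      funext u
      rcases u with u | u
      · show y (e (e.symm _)).1 = _
        rw [Equiv.apply_symm_apply]
        rfl
      · rfl
    rw [e3] at h3
    exact h3

/-- maximal families generate -/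
theorem exists_gen_max {Ψ : Tp L} {χ : Cardinal.{0}} {J : X → A} (hJ : Sy Ψ J) (hX : χ ≤ #X)
    (hext : ∀ (Y : Type) (J : Y → A), Sy Ψ J → χ ≤ #Y → Gn L J ≠ Set.univ →
      ∃ z : Unit → A, Sy Ψ (Sum.elim J z)) :
    ∃ (X : Type) (J : X → A), Sy Ψ J ∧ Gn L J = Set.univ := by
  classical
  obtain ⟨M, hM, hMmax⟩ := zorn_subset_nonempty {S : Set A | Sy Ψ (fun s : S => s.1)} (by
    intro c hc hch hcne
    refine ⟨⋃₀ c, ?_, fun s hs => Set.subset_sUnion_of_mem hs⟩
    refine Sy.loc fun n g => ?_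
    have h1 : ∃ S ∈ c, ∀ i, (g i).1 ∈ S := by
      have h2 : ∀ F : Set A, F.Finite → F ⊆ ⋃₀ c → ∃ S ∈ c, F ⊆ S := by
        intro F hF
        induction F, hF using Set.Finite.induction_on with
        | empty =>
          obtain ⟨S, hS⟩ := hcne
          exact fun _ => ⟨S, hS, Set.empty_subset _⟩
        | @insert a F _ _ ih =>
          intro h3
          obtain ⟨S, hS, hS'⟩ := ih fun y hy => h3 (Or.inr hy)
          obtain ⟨S2, hS2, hS2'⟩ := h3 (Or.inl rfl)
          rcases hch.total hS hS2 with h4 | h4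
          · exact ⟨S2, hS2, Set.insert_subset hS2' (hS'.trans h4)⟩
          · exact ⟨S, hS, Set.insert_subset (h4 hS2') hS'⟩
      obtain ⟨S, hS, hS'⟩ := h2 (Set.range fun i => (g i).1) (Set.finite_range _) (by
        rintro _ ⟨i, rfl⟩
        exact (g i).2)
      exact ⟨S, hS, fun i => hS' ⟨i, rfl⟩⟩
    obtain ⟨S, hS, hS'⟩ := h1
    have h2 : Sy Ψ (fun s : S => s.1) := hc hS
    exact h2.comp ⟨fun i : Fin n => ⟨(g i).1, hS' i⟩, fun i j hij =>
      g.injective (Subtype.ext (congrArg (fun z : S => z.1) hij))⟩) (Set.range J) (by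
    have h1 := hJ.comp ((Equiv.ofInjective J hJ.1).symm.toEmbedding)
    have e : J ∘ (Equiv.ofInjective J hJ.1).symm.toEmbedding =
        fun s : Set.range J => s.1 := by
      funext s
      exact Equiv.apply_ofInjective_symm hJ.1 s
    rw [e] at h1
    exact h1)
  refine ⟨M, fun s => s.1, hMmax.prop, ?_⟩
  by_contra hne
  have hMc : χ ≤ #M := by
    refine hX.trans ?_
    rw [← Cardinal.mk_range_eq J hJ.1]
    exact Cardinal.mk_le_mk_of_subset hM
  obtain ⟨z, hz⟩ := hext M (fun s => s.1) hMmax.prop hMc hne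
  have hzM : z () ∉ M := by
    intro h
    have h1 : (Sum.inl ⟨z (), h⟩ : M ⊕ Unit) = Sum.inr () := hz.1 rfl
    cases h1
  have h2 : insert (z ()) M ∈ {S : Set A | Sy Ψ (fun s : S => s.1)} := by
    let E : (insert (z ()) M : Set A) → M ⊕ Unit := fun s =>
      if h : s.1 ∈ M then .inl ⟨s.1, h⟩ else .inr ()
    have hE : ∀ s, Sum.elim (fun s : M => s.1) z (E s) = s.1 := by
      intro s
      by_cases h : s.1 ∈ M
      · have h3 : E s = .inl ⟨s.1, h⟩ := dif_pos h
        rw [h3]
        rfl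
      · have h3 : E s = .inr () := dif_neg h
        rw [h3]
        exact (s.2.resolve_right h).symm
    have hEinj : Function.Injective E := by
      intro s s' hss
      refine Subtype.ext ?_
      rw [← hE s, ← hE s', hss]
    have h3 := hz.comp ⟨E, hEinj⟩
    have e : Sum.elim (fun s : M => s.1) z ∘ (⟨E, hEinj⟩ : _ ↪ _) =
        fun s : (insert (z ()) M : Set A) => s.1 := funext hE
    rw [e] at h3
    exact h3
  exact hzM (hMmax.le_of_ge h2 (Set.subset_insert _ _) (Set.mem_insert _ _))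

/-- all members of size at least `mu` are generated by indiscernible families -/
theorem exists_gen_up {Ψ : Tp L} (hΨ : U.Gd Ψ) (hX : #X = U.mu) (hNV : NV U Ψ X) (hA : U.K A)
    (hAc : U.mu ≤ #A) : ∃ (X : Type) (J : X → A), Sy Ψ J ∧ Gn L J = Set.univ := by
  obtain ⟨C, hC⟩ := Cardinal.le_mk_iff_exists_set.1 hAc
  have h1 : #(Gn L fun c : C => c.1) = U.mu := by
    refine le_antisymm ((U.mk_Gn _).trans (max_le U.hm.le hC.le)) ?_
    rw [← hC]
    exact Cardinal.mk_le_mk_of_subset fun c hc => mem_Gn (v := fun c : C => c.1) ⟨c, hc⟩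
  obtain ⟨x, hx, -⟩ := hΨ.basis (X := X) hA _ h1 hX
  refine exists_gen_max hx hX.ge fun Y J hJ hY hG => ?_
  obtain ⟨a, ha⟩ := (Set.ne_univ_iff_exists_notMem _).1 hG
  obtain ⟨z, -, hz⟩ := nv_up hΨ hX hNV hY A J (fun _ => a) hA hJ ha
  exact ⟨z, hz⟩

end Pool.Agent.H665.UA
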